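import Pool.Agent.W913.HC.Index

/-! Upper bounds for cofinalities in lexicographically ordered chains, and further cuts of the
chains `T W`. -/

namespace Pool.Agent.Y458.HCX

open Cardinal Set Order
open Pool.Agent.W913 Pool.Agent.W913.HC

universe u v

/-- the cofinality of a linear order without largest element is regular -/
theorem isRegular_cof {α : Type u} [LinearOrder α] [Nonempty α] [NoMaxOrder α] :
    (Order.cof α).IsRegular := by
  refine ⟨Order.aleph0_le_cof, ?_⟩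
  have hinf : ℵ₀ ≤ Order.cof α := Order.aleph0_le_cof
  obtain ⟨S, hS, hScard⟩ := Order.exists_cof_eq α
  have h1 : #((Order.cof α).ord.ToType) = #S := by rw [Cardinal.mk_ord_toType, hScard]
  obtain ⟨f⟩ := Cardinal.eq.mp h1
  obtain ⟨Tc, hT, hTcard⟩ := Order.exists_cof_eq (Order.cof α).ord.ToType
  have hnm : NoMaxOrder (Order.cof α).ord.ToType := by
    rw [← Ordinal.isSuccPrelimit_type_lt_iff, Ordinal.type_toType]
    exact (isSuccLimit_ord hinf).isSuccPrelimit
  rw [← Ordinal.cof_toType, ← hTcard]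
  have hu : ∀ t : Tc, ∃ w : α, ∀ i : (Order.cof α).ord.ToType, i ≤ t.1 → (f i : α) < w := by
    intro t
    by_contra hcon
    push Not at hcon
    have hcof : IsCofinal ((fun i => (f i : α)) '' Iic t.1) := by
      intro x
      obtain ⟨i, hi, hx⟩ := hcon x
      exact ⟨f i, ⟨i, hi, rfl⟩, hx⟩
    obtain ⟨t', ht'⟩ := exists_gt t.1
    have h2 := (Order.cof_le hcof).trans mk_image_le
    have h3 : #(Iic t.1) ≤ #(Iio t') := mk_le_mk_of_subset (fun z hz => lt_of_le_of_lt hz ht')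
    have h4 : #(Iio t') < Order.cof α := Cardinal.mk_Iio_toType_ord_lt t'
    exact absurd (h2.trans h3) (not_le.mpr h4)
  choose w hw using hu
  refine (Order.cof_le (s := range w) ?_).trans mk_range_le
  intro x
  obtain ⟨y, hy, hxy⟩ := hS x
  obtain ⟨i, hi⟩ := f.surjective ⟨y, hy⟩
  obtain ⟨t, ht, hit⟩ := hT i
  refine ⟨w ⟨t, ht⟩, ⟨_, rfl⟩, hxy.trans ?_⟩
  have := hw ⟨t, ht⟩ i hit
  rw [hi] at this
  exact this.le

/-- the set `U` has a cofinal family of at most `κ` elements -/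
def Few {β : Type v} [LinearOrder β] (κ : Cardinal.{u}) (U : Set β) : Prop :=
  ∃ (ι : Type u) (g : ι → β), #ι ≤ κ ∧ (∀ i, g i ∈ U) ∧ ∀ x ∈ U, ∃ i, x ≤ g i

theorem few_of_max {β : Type v} [LinearOrder β] {κ : Cardinal.{u}} (hκ : ℵ₀ ≤ κ) {U : Set β}
    {m : β} (hm : m ∈ U) (h : ∀ x ∈ U, x ≤ m) : Few κ U :=
  ⟨PUnit, fun _ => m, by rw [mk_punit]; exact (one_le_aleph0).trans hκ, fun _ => hm,
    fun x hx => ⟨PUnit.unit, h x hx⟩⟩

theorem few_empty {β : Type v} [LinearOrder β] {κ : Cardinal.{u}} : Few κ (∅ : Set β) :=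
  ⟨PEmpty, fun i => i.elim, by simp, fun i => i.elim, fun x hx => absurd hx (by simp)⟩

theorem few_bool {κ : Cardinal.{u}} (hκ : ℵ₀ ≤ κ) (U : Set Bool) : Few κ U := by
  by_cases h1 : true ∈ U
  · exact few_of_max hκ h1 (fun x _ => Bool.le_true x)
  · by_cases h2 : false ∈ U
    · refine few_of_max hκ h2 (fun x hx => ?_)
      cases x
      · exact le_rfl
      · exact absurd hx h1
    · have : U = ∅ := by
        ext x
        cases x
        · simp [h2]
        · simp [h1]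
      rw [this]
      exact few_empty

theorem few_boolDual {κ : Cardinal.{u}} (hκ : ℵ₀ ≤ κ) (U : Set (OrderDual Bool)) : Few κ U := by
  by_cases h1 : OrderDual.toDual false ∈ U
  · exact few_of_max hκ h1 (fun x _ => Bool.false_le (OrderDual.ofDual x))
  · by_cases h2 : OrderDual.toDual true ∈ U
    · refine few_of_max hκ h2 (fun x hx => ?_)
      rcases hb : OrderDual.ofDual x with _ | _
      · exact absurd (by rw [← hb]; exact hx) h1
      · rw [← hb]; exact le_rfl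
    · have : U = ∅ := by
        ext x
        constructor
        · intro hx
          rcases hb : OrderDual.ofDual x with _ | _
          · exact absurd (by rw [← hb]; exact hx) h1
          · exact absurd (by rw [← hb]; exact hx) h2
        · intro hx
          exact absurd hx (by simp)
      rw [this]
      exact few_empty

theorem cof_le_of_few {α : Type u} [LinearOrder α] {κ : Cardinal.{u}} {A : Set α}
    (h : Few κ A) : Order.cof A ≤ κ := by
  obtain ⟨ι, g, hι, hg, hx⟩ := h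
  refine ((Order.cof_le (s := range (fun i => (⟨g i, hg i⟩ : A))) ?_).trans mk_range_le).trans hι
  intro x
  obtain ⟨i, hi⟩ := hx x.1 x.2
  exact ⟨_, ⟨i, rfl⟩, hi⟩

section rep

variable {Λ : Type u} [LinearOrder Λ] [WellFoundedLT Λ] {F : Type u} [LinearOrder F] {β : Type v}
  [LinearOrder β] {fn : F → Λ → β}

theorem rep_between (R : Rep fn) {c y z : F} {j : Λ} (h : ∀ k ≤ j, fn c k = fn z k)
    (h1 : c ≤ y) (h2 : y ≤ z) : ∀ k ≤ j, fn y k = fn c k := by
  by_contra hcon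
  obtain ⟨m, hm, hag, hne⟩ := exists_first_le hcon
  rcases lt_or_gt_of_ne hne with hlt | hlt
  · exact absurd (R.lt_of_lt_of_le hag hlt) (not_lt.mpr h1)
  · refine absurd (R.lt_of_lt_of_le (x := z) (y := y) (i := m) ?_ ?_) (not_lt.mpr h2)
    · intro k hk
      rw [hag k hk, h k (hk.le.trans hm)]
    · rw [← h m hm]
      exact hlt

/-- In a chain of functions on `Λ` ordered by first differences every subset has cofinality at
most `κ` as soon as this holds for the alphabet and `Λ` has at most `κ` elements. -/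
theorem rep_few (R : Rep fn) {κ : Cardinal.{u}} (hκ : ℵ₀ ≤ κ) (hΛ : #Λ ≤ κ)
    (hβ : ∀ U : Set β, Few κ U) (A : Set F) : Few κ A := by
  classical
  by_cases hmax : ∃ m ∈ A, ∀ a ∈ A, a ≤ m
  · obtain ⟨m, hm, h⟩ := hmax
    exact few_of_max hκ hm h
  push Not at hmax
  by_cases hI : ∀ i : Λ, ∃ a0 ∈ A, ∀ a ∈ A, a0 ≤ a → ∀ j ≤ i, fn a j = fn a0 j
  · choose a haA ha using hI
    refine ⟨Λ, a, hΛ, haA, ?_⟩
    intro x hx
    obtain ⟨x', hx', hlt⟩ := hmax x hx
    obtain ⟨m, hag, hm⟩ := (R.lt_iff x x').mp hlt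
    refine ⟨m, ?_⟩
    by_contra hcon
    have hcon' := not_le.mp hcon
    have e1 := ha m x hx hcon'.le m le_rfl
    have e2 := ha m x' hx' (hcon'.trans hlt).le m le_rfl
    rw [e1, e2] at hm
    exact lt_irrefl _ hm
  · push Not at hI
    obtain ⟨δ, hδ, hmin⟩ := exists_min_mem
      {i : Λ | ∀ a0 ∈ A, ∃ a ∈ A, a0 ≤ a ∧ ∃ j ≤ i, fn a j ≠ fn a0 j} hI
    have hmin' : ∀ i : Iio δ, ∃ a0 ∈ A, ∀ a ∈ A, a0 ≤ a → ∀ j ≤ i.1, fn a j = fn a0 j := by
      intro i
      have := hmin i.1 i.2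
      simp only [mem_ofPred_eq, not_forall] at this
      push Not at this
      obtain ⟨a0, h1, h2⟩ := this
      exact ⟨a0, h1, h2⟩
    choose a haA ha using hmin'
    by_cases hc : ∃ c ∈ A, ∀ j : Iio δ, fn c j.1 = fn (a j) j.1
    · obtain ⟨c, hcA, hc⟩ := hc
      have hag : ∀ y ∈ A, c ≤ y → ∀ j < δ, fn y j = fn c j := by
        intro y hy hcy j hj
        have hck : ∀ k ≤ j, fn c k = fn (a ⟨j, hj⟩) k := by
          intro k hk
          have hk' : k < δ := hk.trans_lt hj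
          rw [hc ⟨k, hk'⟩]
          have hw : max (a ⟨k, hk'⟩) (a ⟨j, hj⟩) ∈ A := by
            rcases max_choice (a ⟨k, hk'⟩) (a ⟨j, hj⟩) with h | h
            · rw [h]; exact haA _
            · rw [h]; exact haA _
          rw [← ha ⟨k, hk'⟩ _ hw (le_max_left _ _) k le_rfl,
            ← ha ⟨j, hj⟩ _ hw (le_max_right _ _) k hk]
        have hz : max y (a ⟨j, hj⟩) ∈ A := by
          rcases max_choice y (a ⟨j, hj⟩) with h | h
          · rw [h]; exact hy
          · rw [h]; exact haA _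
        have hcz : ∀ k ≤ j, fn c k = fn (max y (a ⟨j, hj⟩)) k := by
          intro k hk
          rw [hck k hk, ha ⟨j, hj⟩ _ hz (le_max_right _ _) k hk]
        exact rep_between R hcz hcy (le_max_left _ _) j le_rfl
      obtain ⟨ι, g, hι, hg, hcofg⟩ := hβ {b | ∃ y ∈ A, c ≤ y ∧ fn y δ = b}
      choose y hyA hcy hyg using hg
      refine ⟨ι, y, hι, hyA, ?_⟩
      intro x hx
      have hx1 : max x c ∈ A := by
        rcases max_choice x c with h | h
        · rw [h]; exact hx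
        · rw [h]; exact hcA
      obtain ⟨x2, hx2, hle, j, hj, hne⟩ := hδ _ hx1
      have hjδ : j = δ := by
        rcases hj.eq_or_lt with h | h
        · exact h
        · exfalso
          apply hne
          rw [hag x2 hx2 ((le_max_right _ _).trans hle) j h, hag _ hx1 (le_max_right _ _) j h]
      subst hjδ
      have hlt : fn (max x c) j < fn x2 j := by
        refine R.first_lt (lt_of_le_of_ne hle (fun h => hne (by rw [← h]))) ?_ (Ne.symm hne)
        intro k hk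
        rw [hag x2 hx2 ((le_max_right _ _).trans hle) k hk, hag _ hx1 (le_max_right _ _) k hk]
      obtain ⟨i, hi⟩ := hcofg _ ⟨x2, hx2, (le_max_right _ _).trans hle, rfl⟩
      refine ⟨i, (le_max_left x c).trans (le_of_lt ?_)⟩
      refine R.lt_of_lt_of_le (i := j) ?_ ?_
      · intro k hk
        rw [hag _ hx1 (le_max_right _ _) k hk, hag _ (hyA i) (hcy i) k hk]
      · rw [hyg i]
        exact hlt.trans_le hi
    · push Not at hc
      refine ⟨Iio δ, a, (mk_set_le _).trans hΛ, haA, ?_⟩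
      intro x hx
      obtain ⟨j, hj⟩ := hc x hx
      refine ⟨j, ?_⟩
      by_contra hcon
      exact hj (ha j x hx (not_le.mp hcon).le j.1 le_rfl)

omit [WellFoundedLT Λ] in
theorem rep_dual (R : Rep fn) :
    Rep (fun x : OrderDual F => fun i : Λ => OrderDual.toDual (fn (OrderDual.ofDual x) i)) where
  inj := fun x y h => by
    apply OrderDual.ofDual.injective
    apply R.inj
    funext i
    exact OrderDual.toDual.injective (congrFun h i)
  lt_iff := fun x y => by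
    have h1 : x < y ↔ OrderDual.ofDual y < OrderDual.ofDual x := Iff.rfl
    rw [h1, R.lt_iff]
    refine exists_congr fun i => and_congr ?_ Iff.rfl
    refine forall_congr' fun j => imp_congr_right fun _ => ?_
    exact ⟨fun h => by rw [h], fun h => (OrderDual.toDual.injective h).symm⟩

end rep

section chains

variable {Λ : Type u} [LinearOrder Λ] [WellFoundedLT Λ]

theorem few_of_cof_le {α : Type u} [LinearOrder α] {κ : Cardinal.{u}} {A : Set α}
    (h : Order.cof A ≤ κ) : Few κ A := by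
  obtain ⟨S, hS, hcard⟩ := Order.exists_cof_eq A
  refine ⟨S, fun i => i.1.1, hcard.le.trans h, fun i => i.1.2, ?_⟩
  intro x hx
  obtain ⟨y, hy, hxy⟩ := hS ⟨x, hx⟩
  exact ⟨⟨y, hy⟩, hxy⟩

theorem few_K {κ : Cardinal.{u}} (hκ : ℵ₀ ≤ κ) (hΛ : #Λ ≤ κ) (U : Set (K Λ)) : Few κ U :=
  rep_few K.rep hκ hΛ (few_bool hκ) U

theorem few_KDual {κ : Cardinal.{u}} (hκ : ℵ₀ ≤ κ) (hΛ : #Λ ≤ κ) (U : Set (OrderDual (K Λ))) :
    Few κ U :=
  rep_few (rep_dual K.rep) hκ hΛ (few_boolDual hκ) U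

variable {W : Λ → Set (K Λ)}

theorem T.cof_le {κ : Cardinal.{u}} (hκ : ℵ₀ ≤ κ) (hΛ : #Λ ≤ κ) (A : Set (HC.T W)) :
    Order.cof A ≤ κ :=
  cof_le_of_few (rep_few T.rep hκ hΛ (few_K hκ hΛ) A)

theorem T.coinit_le {κ : Cardinal.{u}} (hκ : ℵ₀ ≤ κ) (hΛ : #Λ ≤ κ) (A : Set (HC.T W)) :
    Order.cof (OrderDual A) ≤ κ := by
  have h : Few κ {x : OrderDual (HC.T W) | OrderDual.ofDual x ∈ A} :=
    rep_few (rep_dual T.rep) hκ hΛ (few_KDual hκ hΛ) _
  obtain ⟨ι, g, hι, hg, hx⟩ := h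
  refine ((Order.cof_le (s := range (fun i => OrderDual.toDual
    (⟨OrderDual.ofDual (g i), hg i⟩ : A))) ?_).trans mk_range_le).trans hι
  intro x
  obtain ⟨i, hi⟩ := hx (OrderDual.toDual (OrderDual.ofDual x).1) (OrderDual.ofDual x).2
  exact ⟨_, ⟨i, rfl⟩, hi⟩

variable [NoMaxOrder Λ] [Nonempty Λ]

theorem T.cof_Iio (hW : Good W) (x : HC.T W) : Order.cof (Iio x) = Order.cof Λ := by
  have h1 : ∀ y : Iio x, ∃ i, (∀ j < i, y.1.fn j = x.fn j) ∧ y.1.fn i < x.fn i :=
    fun y => T.lt_iff.mp y.2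
  choose ρ hρ1 hρ2 using h1
  have h2 : ∀ i : Λ, ∃ y : Iio x, ∀ j < i, y.1.fn j = x.fn j := by
    intro i
    obtain ⟨v, hv⟩ := exists_lt (x.fn i)
    have hvW : v ∈ W i := hW.lower i hv.le (x.mem i)
    refine ⟨⟨st x i x.fn (fun ξ _ => x.mem ξ) v hvW, ?_⟩,
      fun j hj => st_mem x i x.fn (fun ξ _ => x.mem ξ) v hvW j hj⟩
    refine T.lt_iff.mpr ⟨i, fun j hj => st_mem x i x.fn (fun ξ _ => x.mem ξ) v hvW j hj, ?_⟩
    rw [st_at]
    exact hv
  choose a ha using h2
  refine cof_eq_of_maps (fun i => exists_gt i) ρ a ?_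
  intro y i hi
  show y.1 < (a i).1
  refine T.lt_iff.mpr ⟨ρ y, ?_, ?_⟩
  · intro j hj
    rw [ha i j (hj.trans hi), hρ1 y j hj]
  · rw [ha i _ hi]
    exact hρ2 y

theorem T.coinit_Ioi (hW : Good W) (x : HC.T W) :
    Order.cof (OrderDual (Ioi x)) = Order.cof Λ := by
  have h1 : ∀ y : OrderDual (Ioi x), ∃ i, (∀ j < i, x.fn j = (OrderDual.ofDual y).1.fn j) ∧
      x.fn i < (OrderDual.ofDual y).1.fn i :=
    fun y => T.lt_iff.mp (OrderDual.ofDual y).2
  choose ρ hρ1 hρ2 using h1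
  have h2 : ∀ i : Λ, ∃ y : Ioi x, ∀ j < i, y.1.fn j = x.fn j := by
    intro i
    obtain ⟨v, hv, hlt⟩ := hW.nomax i (x.fn i) (x.mem i)
    refine ⟨⟨st x i x.fn (fun ξ _ => x.mem ξ) v hv, ?_⟩,
      fun j hj => st_mem x i x.fn (fun ξ _ => x.mem ξ) v hv j hj⟩
    refine T.lt_iff.mpr ⟨i, fun j hj => (st_mem x i x.fn (fun ξ _ => x.mem ξ) v hv j hj).symm, ?_⟩
    rw [st_at]
    exact hlt
  choose a ha using h2
  refine cof_eq_of_maps (fun i => exists_gt i) ρ (fun i => OrderDual.toDual (a i)) ?_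
  intro y i hi
  show (a i).1 < (OrderDual.ofDual y).1
  refine T.lt_iff.mpr ⟨ρ y, ?_, ?_⟩
  · intro j hj
    rw [ha i j (hj.trans hi), hρ1 y j hj]
  · rw [ha i _ hi]
    exact hρ2 y

/-- the mirrored cut at a limit level -/
theorem T.exists_cut' (hW : Good W) (δ : Λ) (hδ : (Iio δ).Nonempty)
    (hlim : ∀ j < δ, ∃ k, j < k ∧ k < δ) :
    ∃ A B : Set (HC.T W), HC.IsCut A B ∧ Order.cof A = Order.cof (Iio δ) ∧
      Order.cof (OrderDual B) = Order.cof Λ := by
  classical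
  choose y hy using hW.ne
  let x : HC.T W := T.mk y hy
  let s : Λ → K Λ := x.fn
  have hs : ∀ ξ < δ, s ξ ∈ W ξ := fun ξ _ => x.mem ξ
  let A : Set (HC.T W) := {z | ∃ i < δ, (∀ j < i, z.fn j = s j) ∧ z.fn i < s i}
  let B : Set (HC.T W) := {z | z ∈ TCone W δ s ∨ ∃ i < δ, (∀ j < i, z.fn j = s j) ∧ s i < z.fn i}
  have hdown : ∀ i < δ, ∃ z : HC.T W, (∀ j < i, z.fn j = s j) ∧ z.fn i < s i := by
    intro i hi
    obtain ⟨v, hlt⟩ := exists_lt (s i)
    exact ⟨st x i s (fun ξ _ => x.mem ξ) v (hW.lower i hlt.le (x.mem i)), st_mem _ _ _ _ _ _,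
      by rw [st_at]; exact hlt⟩
  have hBcone : ∀ z ∈ B, z ∉ TCone W δ s → ∀ z' ∈ TCone W δ s, z' < z := by
    rintro z (h | ⟨i, hi, h1, h2⟩) hz z' hz'
    · exact absurd h hz
    · refine T.lt_iff.mpr ⟨i, ?_, ?_⟩
      · intro j hj
        rw [h1 j hj, hz' j (hj.trans hi)]
      · rw [hz' i hi]; exact h2
  have hAB : ∀ a ∈ A, ∀ b ∈ B, a < b := by
    rintro a ⟨m, hm, g1, g2⟩ b (hb | ⟨i, hi, h1, h2⟩)
    · refine T.lt_iff.mpr ⟨m, ?_, ?_⟩
      · intro j hj
        rw [hb j (hj.trans hm), g1 j hj]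
      · rw [hb m hm]; exact g2
    · rcases lt_trichotomy i m with h | h | h
      · refine T.lt_iff.mpr ⟨i, ?_, ?_⟩
        · intro j hj
          rw [h1 j hj, g1 j (hj.trans h)]
        · rw [g1 i h]; exact h2
      · subst h
        refine T.lt_iff.mpr ⟨i, ?_, g2.trans h2⟩
        intro j hj
        rw [h1 j hj, g1 j hj]
      · refine T.lt_iff.mpr ⟨m, ?_, ?_⟩
        · intro j hj
          rw [h1 j (hj.trans h), g1 j hj]
        · rw [h1 m h]; exact g2
  have hcut : HC.IsCut A B := by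
    refine ⟨?_, ⟨x, Or.inl (fun j hj => rfl)⟩, hAB, ?_, ?_, Or.inl ?_⟩
    · obtain ⟨i, hi⟩ := hδ
      obtain ⟨z, h1, h2⟩ := hdown i hi
      exact ⟨z, i, hi, h1, h2⟩
    · rintro b ⟨i, hi, h1, h2⟩
      obtain ⟨k, hik, hkδ⟩ := hlim i hi
      obtain ⟨z, g1, g2⟩ := hdown k hkδ
      refine ⟨z, ⟨k, hkδ, g1, g2⟩, T.lt_iff.mpr ⟨i, ?_, ?_⟩⟩
      · intro j hj
        rw [g1 j (hj.trans hik), h1 j hj]
      · rw [g1 i hik]; exact h2
    · intro a ha
      by_cases hac : a ∈ TCone W δ s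
      · obtain ⟨z, hz, hlt⟩ := T.exists_lt_cone hW hac
        exact ⟨z, Or.inl hz, hlt⟩
      · exact ⟨x, Or.inl (fun j hj => rfl), hBcone a ha hac x (fun j hj => rfl)⟩
    · ext z
      simp only [mem_union, mem_univ, iff_true]
      by_cases hz : z ∈ TCone W δ s
      · exact Or.inr (Or.inl hz)
      · obtain ⟨i, hi, h1, h2⟩ := exists_first_lt hz
        rcases lt_or_gt_of_ne h2 with h | h
        · exact Or.inl ⟨i, hi, h1, h⟩
        · exact Or.inr (Or.inr ⟨i, hi, h1, h⟩)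
  refine ⟨A, B, hcut, ?_, ?_⟩
  · have hρ : ∀ z : A, ∃ i : Iio δ, (∀ j < i.1, z.1.fn j = s j) ∧ z.1.fn i.1 < s i.1 := by
      intro z
      obtain ⟨i, hi, h1, h2⟩ := z.2
      exact ⟨⟨i, hi⟩, h1, h2⟩
    choose ρ h1 h2 using hρ
    choose w w1 w2 using fun i : Iio δ => hdown i.1 i.2
    refine cof_eq_of_maps ?_ ρ (fun i => ⟨w i, i.1, i.2, w1 i, w2 i⟩) ?_
    · intro i
      obtain ⟨k, hk1, hk2⟩ := hlim i.1 i.2
      exact ⟨⟨k, hk2⟩, hk1⟩
    · intro z i hi
      show z.1 < w i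
      refine T.lt_iff.mpr ⟨(ρ z).1, ?_, ?_⟩
      · intro j hj
        rw [w1 i j (hj.trans hi), h1 z j hj]
      · rw [w1 i _ hi]
        exact h2 z
  · rw [← coinit_TCone hW x δ s hs]
    refine (coinit_subset_eq (fun z hz => Or.inl hz) ?_).symm
    intro a ha
    by_cases hac : a ∈ TCone W δ s
    · exact ⟨a, hac, le_rfl⟩
    · exact ⟨x, fun j hj => rfl, (hBcone a ha hac x (fun j hj => rfl)).le⟩

theorem T.cof_eq (hW : Good W) (δ : Λ) (hδ : ∀ j, ¬ j < δ) (hWδ : W δ = Set.univ) :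
    Order.cof (HC.T W) = Order.cof Λ := by
  choose y hy using hW.ne
  have h1 := cof_TCone hW (T.mk y hy) δ y (fun ξ _ => hy ξ)
  have h2 : IsCofinal (TCone W δ y) := by
    intro x
    exact ⟨x, fun j hj => absurd hj (hδ j), le_rfl⟩
  rw [← Order.cof_eq_of_isCofinal h2, h1, hWδ,
    Order.cof_eq_of_isCofinal (α := K Λ) IsCofinal.univ, cof_K]

theorem T.coinit_eq (hW : Good W) (δ : Λ) (hδ : ∀ j, ¬ j < δ) :
    Order.cof (OrderDual (HC.T W)) = Order.cof Λ := by
  choose y hy using hW.ne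
  have h1 := coinit_TCone hW (T.mk y hy) δ y (fun ξ _ => hy ξ)
  rw [← h1]
  refine (Order.cof_congr_of_strictMono
    (f := fun d : OrderDual (TCone W δ y) => OrderDual.toDual (OrderDual.ofDual d).1)
    (fun x y h => h) ?_).symm
  intro x
  exact ⟨x, ⟨OrderDual.toDual ⟨OrderDual.ofDual x, fun j hj => absurd hj (hδ j)⟩, rfl⟩, le_rfl⟩

end chains

end Pool.Agent.Y458.HCX
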